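import Pool.Agent.Helper35.MS.StK

/-!
# Project MS, module OSC: oscillation of functions with small gradient
-/

set_option autoImplicit false

namespace Helper3.MS

open Helper35.MS Helper35.PI Helper35.PI2 Helper32.CL
open scoped ContDiff Manifold Topology ENNReal BigOperators
open MeasureTheory Set Filter

private theorem neg_apply' {V : Type} [AddCommGroup V] [TopologicalSpace V] [IsTopologicalAddGroup V]
    [Module ℝ V] (f : V →L[ℝ] ℝ) (v : V) : (-f) v = -(f v) := rfl

/-- a slice of a continuous function of space time is continuous -/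
private theorem sl {M E : Type} [TopologicalSpace M] [TopologicalSpace E] (J : Set ℝ) (G : M → ℝ → E)
    (hG : ContinuousOn (fun z : M × ℝ => G z.1 z.2) (univ ×ˢ J)) (t : ℝ) (ht : t ∈ J) :
    Continuous fun q => G q t := by
  have hslice : Continuous (fun q : M => ((q, t) : M × ℝ)) := by fun_prop
  have hmaps : ∀ q : M, ((q, t) : M × ℝ) ∈ (univ : Set M) ×ˢ J := fun q => ⟨mem_univ _, ht⟩
  exact hG.comp_continuous hslice hmaps

private theorem gdM_sub {N : ℕ} {M : Type} [TopologicalSpace M] [ChartedSpace (EE 2) M]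
    (F : M → ℝ → EE N) (t : ℝ) (h : M → ℝ) (q : M) :
    gdM 2 F t (fun p => 2 - h p) q = - gdM 2 F t h q := by
  have e : fderiv ℝ (fun y => 2 - h ((chartAt (EE 2) q).symm y)) (chartAt (EE 2) q q)
      = - fderiv ℝ (fun y => h ((chartAt (EE 2) q).symm y)) (chartAt (EE 2) q q) :=
    fderiv_const_sub 2
  unfold gdM
  rw [e]
  simp only [neg_apply', mul_neg, neg_smul, Finset.sum_neg_distrib]

private theorem bound (hSIM : StSIM) (hHAR : StHAR) (N : ℕ) (M : Type) [TopologicalSpace M]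
    [T2Space M] [CompactSpace M] [MeasurableSpace M] [BorelSpace M]
    [ChartedSpace (EE 2) M] [IsManifold (𝓡 2) ∞ M] (J : Set ℝ) (F : M → ℝ → EE N) (c : ℕ → M)
    (χ : ℕ → M → ℝ) (hS : SetupJ 2 J F c χ) (t : ℝ) (ht : t ∈ J) (k₀ : ℝ) (hk : 0 ≤ k₀)
    (h : M → ℝ) (hh : ContMDiff (𝓡 2) 𝓘(ℝ, ℝ) 1 h) (h0 : ∀ q, 0 ≤ h q)
    (hg : ∀ q, ‖gdM 2 F t h q‖ ≤ k₀) (q : M) :
    16 * Real.pi * h q ≤ ∫ p, h p * YF F p t ∂muM 2 F c χ t
      + 8 * (k₀ * Real.sqrt (2 * wI F c χ t * arI F c χ t)) := by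
  have h1 := hSIM N M J F c χ hS t ht h (fun _ => k₀) hh continuous_const h0 hg q
  have h2 := hHAR N M J F c χ hS t ht univ MeasurableSet.univ (F q t)
  rw [Measure.restrict_univ] at h2
  have h3 : ∫⁻ p, ENNReal.ofReal (k₀ / ‖F p t - F q t‖) ∂muM 2 F c χ t
      ≤ ENNReal.ofReal (k₀ * Real.sqrt (2 * wI F c χ t * arI F c χ t)) := by
    have e : ∀ p, ENNReal.ofReal (k₀ / ‖F p t - F q t‖)
        = ENNReal.ofReal k₀ * ENNReal.ofReal (1 / ‖F p t - F q t‖) := by
      intro p
      rw [← ENNReal.ofReal_mul hk]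
      congr 1
      ring
    simp only [e]
    rw [lintegral_const_mul' _ _ ENNReal.ofReal_ne_top, ENNReal.ofReal_mul hk]
    exact mul_le_mul_right h2 _
  have hI : 0 ≤ ∫ p, h p * YF F p t ∂muM 2 F c χ t := by
    refine integral_nonneg fun p => mul_nonneg (h0 p) ?_
    unfold YF
    positivity
  have hR : 0 ≤ k₀ * Real.sqrt (2 * wI F c χ t * arI F c χ t) := mul_nonneg hk (Real.sqrt_nonneg _)
  have h4 : ENNReal.ofReal (16 * Real.pi * h q) ≤ ENNReal.ofReal (∫ p, h p * YF F p t ∂muM 2 F c χ t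
      + 8 * (k₀ * Real.sqrt (2 * wI F c χ t * arI F c χ t))) := by
    refine h1.trans ?_
    rw [ENNReal.ofReal_add hI (by positivity), ENNReal.ofReal_mul (by norm_num)]
    have e8 : ENNReal.ofReal 8 = 8 := by norm_num
    rw [e8]
    gcongr
  exact (ENNReal.ofReal_le_ofReal_iff (by positivity)).mp h4

theorem hOSC (hSIM : StSIM) (hHAR : StHAR) (hMUJ : StMUJ) (hI4J : StI4J) : StOSC := by
  intro N M _ _ _ _ _ _ _ _ J F c χ hS t ht ε k₀ he he1 hk hY hA h hh h02 hg
  obtain ⟨s, _, hMU⟩ := hMUJ 2 N M J F c χ hS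
  obtain ⟨hfin, _, hint⟩ := hMU t ht
  have hHc : Continuous (fun q => HH (n := 2) F q t) :=
    sl J (HH (n := 2) F) (hI4J 2 N M J F hS.mcf).2.1 t ht
  have hYc : Continuous (fun q => YF F q t) := by
    unfold YF
    exact (hHc.norm).pow 2
  have hhc : Continuous h := hh.continuous
  have : IsFiniteMeasure (muM 2 F c χ t) := ⟨hfin⟩
  have i1 : Integrable h (muM 2 F c χ t) := (hint h hhc).1
  have iY : Integrable (fun q => YF F q t) (muM 2 F c χ t) := (hint _ hYc).1
  have ihY : Integrable (fun q => h q * YF F q t) (muM 2 F c χ t) := (hint _ (hhc.mul hYc)).1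
  have ihY' : Integrable (fun q => (2 - h q) * YF F q t) (muM 2 F c χ t) :=
    (hint _ ((continuous_const.sub hhc).mul hYc)).1
  have hA0 : 0 ≤ arI F c χ t := measureReal_nonneg
  have hc1 : ∫ _q : M, (1 : ℝ) ∂muM 2 F c χ t = arI F c χ t := by
    rw [integral_const, smul_eq_mul, mul_one]
    rfl
  have hYu : ∀ q, YF F q t ≤ 4 + ε := fun q => by
    have := (abs_le.mp (hY q)).2
    linarith
  have hY0 : ∀ q, 0 ≤ YF F q t := fun q => by
    unfold YF
    positivity
  have hW0 : 0 ≤ wI F c χ t := integral_nonneg fun q => hY0 q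
  have hW : wI F c χ t ≤ 5 * arI F c χ t := by
    rw [← hc1, ← integral_const_mul]
    unfold wI
    refine integral_mono iY ((integrable_const _).const_mul 5) fun q => ?_
    have := hYu q
    simp only [mul_one]
    linarith
  have hsum : ∫ p, h p * YF F p t ∂muM 2 F c χ t + ∫ p, (2 - h p) * YF F p t ∂muM 2 F c χ t
      ≤ 2 * (4 + ε) * arI F c χ t := by
    rw [← integral_add ihY ihY', ← hc1, ← integral_const_mul]
    refine integral_mono (ihY.add ihY') ((integrable_const _).const_mul _) fun q => ?_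
    have := hYu q
    have := hY0 q
    simp only [mul_one]
    nlinarith
  have hpi := Real.pi_gt_three
  have hpi2 := Real.pi_lt_d2
  have hA1 : arI F c χ t ≤ 14 := by linarith
  have hs : Real.sqrt (2 * wI F c χ t * arI F c χ t) ≤ 45 := by
    refine Real.sqrt_le_iff.mpr ⟨by norm_num, ?_⟩
    have : 2 * wI F c χ t * arI F c χ t ≤ 2 * (5 * 14) * 14 := by
      have h1 : wI F c χ t ≤ 5 * 14 := by linarith
      have h2 : wI F c χ t * arI F c χ t ≤ (5 * 14) * 14 := mul_le_mul h1 hA1 hA0 (by norm_num)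
      linarith
    linarith
  have hS0 := Real.sqrt_nonneg (2 * wI F c χ t * arI F c χ t)
  have key : ∀ p q : M, h p - h q ≤ 2 * ε + 16 * k₀ := by
    intro p q
    have b1 := bound hSIM hHAR N M J F c χ hS t ht k₀ hk h hh (fun q => (h02 q).1) hg p
    have b2 := bound hSIM hHAR N M J F c χ hS t ht k₀ hk (fun q => 2 - h q)
      (contMDiff_const.sub hh) (fun q => by linarith [(h02 q).2]) (fun q => by
        rw [gdM_sub, norm_neg]
        exact hg q) q
    have b3 : k₀ * Real.sqrt (2 * wI F c χ t * arI F c χ t) ≤ k₀ * 45 :=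
      mul_le_mul_of_nonneg_left hs hk
    have b4 : 16 * Real.pi * (h p - h q) ≤ 2 * (4 + ε) * arI F c χ t - 32 * Real.pi
        + 16 * (k₀ * 45) := by
      nlinarith
    have b5 : 2 * (4 + ε) * arI F c χ t ≤ 2 * (4 + ε) * (4 * Real.pi + ε) :=
      mul_le_mul_of_nonneg_left hA (by linarith)
    have b6 : 16 * Real.pi * (h p - h q) ≤ 16 * Real.pi * (2 * ε + 16 * k₀) := by
      nlinarith [mul_nonneg he (sub_nonneg.mpr hpi.le), mul_nonneg hk (sub_nonneg.mpr hpi.le),
        mul_nonneg he (sub_nonneg.mpr he1)]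
    exact le_of_mul_le_mul_left b6 (by positivity)
  intro p q
  rw [abs_le]
  constructor
  · linarith [key q p]
  · exact key p q

end Helper3.MS
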